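import Pool.Agent.Work.MP_0eb8a1_h84.All

/-!
# MP_0eb8a1_co, DenseEnd

`F(n, N)` is the number of the forcibly connected graphical partitions of `N` with exactly `n`
parts.  The last `n - 1` terms of the sequence `F(n, 2n-2), F(n, 2n), ..., F(n, n(n-1))` are
nonincreasing, and strictly decreasing up to the last two: one missing edge more makes `F` larger
as long as at most `n - 2` edges are missing.
-/

open Pool.Agent.Work.MP_0eb8a1_h84

/-- For all `m + 3 ≤ n` one has `F(n, n(n-1) - 2m) ≤ F(n, n(n-1) - 2(m+1))`, with strict inequality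
if `m ≥ 1`. -/
theorem Pool.Agent.Results.MP_0eb8a1_co.DenseEnd.result :
    ∀ n m : ℕ, m + 3 ≤ n →
      F n (n * (n - 1) - 2 * m) ≤ F n (n * (n - 1) - 2 * (m + 1)) ∧
      (1 ≤ m → F n (n * (n - 1) - 2 * m) < F n (n * (n - 1) - 2 * (m + 1))) :=
  main_thm
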